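import Pool.Agent.W528.ZC.Stm

set_option autoImplicit false

namespace Pool.Agent.W347.ZC.BR

open MvPolynomial Pool.Agent.W528.ZC

theorem D_X {K : Type} [Field K] {ι : Type} [Fintype ι] [DecidableEq ι] (y : Matrix ι ι K)
    (p : ι × ι) : D y (X p : MvPolynomial (ι × ι) K) = ∑ j, C (y j p.2) * X (p.1, j) := by
  simp [D, mkDerivation_X]

theorem D_D {K : Type} [Field K] {ι : Type} [Fintype ι] [DecidableEq ι] (x y : Matrix ι ι K)
    (p : ι × ι) : D x (D y (X p : MvPolynomial (ι × ι) K)) =
      ∑ k, C ((x * y) k p.2) * X (p.1, k) := by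
  rw [D_X, map_sum]
  have h : ∀ j, D x (C (y j p.2) * X (p.1, j) : MvPolynomial (ι × ι) K) =
      ∑ k, C (x k j * y j p.2) * X (p.1, k) := by
    intro j
    rw [← MvPolynomial.smul_eq_C_mul, Derivation.map_smul, D_X, Finset.smul_sum]
    apply Finset.sum_congr rfl
    intro k _
    rw [MvPolynomial.smul_eq_C_mul, ← mul_assoc, ← C_mul, mul_comm (y j p.2)]
  simp only [h]
  rw [Finset.sum_comm]
  apply Finset.sum_congr rfl
  intro k _
  rw [← Finset.sum_mul, ← map_sum]
  rfl

theorem main : Pool.Agent.W528.ZC.BR := by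
  intro K _ ι _ _ x y f
  have h : ⁅D x, D y⁆ = D (x * y - y * x) := by
    apply MvPolynomial.derivation_ext
    intro p
    rw [Derivation.commutator_apply, D_D, D_D, D_X, ← Finset.sum_sub_distrib]
    apply Finset.sum_congr rfl
    intro k _
    rw [← sub_mul, ← C_sub, Matrix.sub_apply]
  rw [← h, Derivation.commutator_apply]

end Pool.Agent.W347.ZC.BR
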